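import Mathlib

/-!
A Sylow subgroup argument: a signed permutation module on a prime power number of pairs is local.
-/

set_option autoImplicit false

namespace Pool.Agent.P.MP_ee618e_ag.PP

open Finset MulAction

/-- A prime power dividing the length of an orbit divides the length of the orbit of a Sylow
subgroup. -/
theorem dvd_orbit {H R : Type*} [Group H] [Finite H] [MulAction H R] {l k : ℕ} [Fact l.Prime]
    (Q : Sylow l H) (w : R) (h : l ^ k ∣ (orbit H w).ncard) :
    l ^ k ∣ (orbit (Q : Subgroup H) w).ncard := by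
  rw [← index_stabilizer] at h ⊢
  have h1 : (stabilizer (Q : Subgroup H) w).index = (stabilizer H w).relIndex Q := rfl
  have h2 := Subgroup.index_dvd_of_le (inf_le_left : stabilizer H w ⊓ Q ≤ _)
  rw [← Subgroup.relIndex_mul_index (inf_le_right : stabilizer H w ⊓ Q ≤ _),
    Subgroup.inf_relIndex_right] at h2
  rw [h1]
  exact (Nat.Coprime.pow_left k ((Nat.Prime.coprime_iff_not_dvd Fact.out).2
    Q.not_dvd_index)).dvd_of_dvd_mul_right (h.trans h2)

variable {R : Type*} [Fintype R] {bar : R → R}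

theorem exists_half (h2 : ∀ z, bar (bar z) = z) (hne : ∀ z, bar z ≠ z) {A : R → Prop}
    (hA : ∀ w, A w ∨ A (bar w)) : ∃ Φ : Finset R, (∀ w ∈ Φ, A w) ∧ ∀ w, bar w ∈ Φ ↔ w ∉ Φ := by
  classical
  let : LinearOrder R := linearOrderOfSTO WellOrderingRel
  refine ⟨univ.filter fun w => A w ∧ (¬ A (bar w) ∨ w < bar w), fun w hw => (mem_filter.1 hw).2.1,
    fun w => ?_⟩
  simp only [mem_filter, mem_univ, true_and, h2]
  have h3 := hA w
  rcases lt_or_gt_of_ne (hne w) with h | h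
  · have := h.not_gt
    tauto
  · have := h.not_gt
    tauto

theorem sum_half (h2 : ∀ z, bar (bar z) = z) {Φ : Finset R} (hΦ : ∀ w, bar w ∈ Φ ↔ w ∉ Φ)
    {u : R → ℤ} (hu : ∀ z, u (bar z) = u z) : ∑ z, u z = 2 * ∑ z ∈ Φ, u z := by
  classical
  rw [← sum_add_sum_compl Φ, two_mul]
  congr 1
  exact sum_nbij' bar bar (fun a ha => (hΦ a).2 (mem_compl.1 ha))
    (fun a ha => mem_compl.2 fun h => (hΦ a).1 h ha) (fun a _ => h2 a) (fun a _ => h2 a)
    fun a _ => (hu a).symm

/-- The local step. -/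
theorem local_step {H : Type*} [Group H] [Finite H] [MulAction H R] {l m : ℕ} (hl : l.Prime)
    (h2 : ∀ z, bar (bar z) = z) (hne : ∀ z, bar z ≠ z) {c : R → ℤ} (hc : ∀ z, c (bar z) = - c z)
    {X : Set R} (hX : ∀ w ∈ X, orbit H w = X) (hb : ∀ w ∈ X, bar w ∈ X)
    (hcard : X.ncard = 2 * l ^ m) (hout : ∀ z, z ∉ X → (l : ℤ) ∣ c z)
    (hΦ : ∀ Φ : Finset R, Φ.card = l ^ m → (∀ z ∈ Φ, z ∈ X) → (∀ z ∈ Φ, bar z ∉ Φ) →
      ¬ (l : ℤ) ∣ ∑ z ∈ Φ, c z)
    (Λ : AddSubgroup (R → ℤ)) (hΛ : ∀ y ∈ Λ, ∀ η : H, (fun z => y (η • z)) ∈ Λ)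
    (hodd : ∀ y ∈ Λ, ∀ z, y (bar z) = - y z) (hsum : ∀ y ∈ Λ, ∑ z, y z * c z = 0)
    {y : R → ℤ} (hy : y ∈ Λ) {w : R} (hw : w ∈ X) : (l : ℤ) ∣ y w := by
  classical
  have : Fact l.Prime := ⟨hl⟩
  by_contra hno
  let red : (R → ℤ) →+ (R → ZMod l) :=
    { toFun := fun y z => if z ∈ X then (y z : ZMod l) else 0
      map_zero' := by funext z; simp
      map_add' := fun a b => by funext z; by_cases h : z ∈ X <;> simp [h] }
  have hred : ∀ y z, z ∈ X → red y z = y z := fun y z h => if_pos h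
  have hmem : ∀ (η : H) z, η • z ∈ X ↔ z ∈ X := fun η z =>
    ⟨fun h => by simpa using (hX _ h).le (mem_orbit (η • z) η⁻¹), fun h => (hX _ h).le ⟨η, rfl⟩⟩
  let M := Λ.map red
  let Q : Sylow l H := default
  let : MulAction (Q : Subgroup H) M :=
    { smul := fun g F => ⟨fun z => F.1 ((g⁻¹ : H) • z), by
        obtain ⟨y, hy, e⟩ := F.2
        refine ⟨_, hΛ y hy g⁻¹, funext fun z => ?_⟩
        rw [← e]
        exact if_congr (hmem _ _).symm rfl rfl⟩
      one_smul := fun F => Subtype.ext (funext fun z => congrArg F.1 (by simp))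
      mul_smul := fun g g' F => Subtype.ext (funext fun z => congrArg F.1 (by simp [mul_smul])) }
  have hM : l ∣ Nat.card M := by
    have h0 : (⟨red y, y, hy, rfl⟩ : M) ≠ 0 := fun e => hno (by
      have := congrFun (congrArg Subtype.val e) w
      exact (ZMod.intCast_zmod_eq_zero_iff_dvd _ _).1 ((hred y w hw).symm.trans this))
    exact (addOrderOf_eq_prime (p := l) (Subtype.ext (funext fun z => by simp)) h0).symm.dvd.trans
      (addOrderOf_dvd_natCard _)
  obtain ⟨⟨_, y, hy, rfl⟩, hF, h0⟩ := Q.isPGroup'.exists_fixed_point_of_prime_dvd_card_of_fixed_point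
    M hM (a := 0) fun g => rfl
  obtain ⟨w, ha⟩ : ∃ w, red y w ≠ 0 := Function.ne_iff.1 fun e => h0 (Subtype.ext e.symm)
  have hw : w ∈ X := by_contra fun h => ha (if_neg h)
  have hsub : orbit (Q : Subgroup H) w ⊆ X := by
    rintro _ ⟨g, rfl⟩
    exact (hmem g w).2 hw
  have hO : ∀ z ∈ orbit (Q : Subgroup H) w, (y z : ZMod l) = y w := by
    intro z hz
    rw [← hred y z (hsub hz), ← hred y w hw]
    obtain ⟨g, rfl⟩ := hz
    have e : red y (((g⁻¹ : (Q : Subgroup H)) : H)⁻¹ • w) = red y w :=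
      congrFun (congrArg Subtype.val (hF g⁻¹)) w
    rwa [InvMemClass.coe_inv, inv_inv] at e
  rw [hred y w hw] at ha
  have hpos : 0 < (orbit (Q : Subgroup H) w).ncard :=
    (Set.ncard_pos (Set.toFinite _)).2 ⟨w, mem_orbit_self w⟩
  have hA : ∀ z, (z ∈ X → (y z : ZMod l) = y w) ∨ (bar z ∈ X → (y (bar z) : ZMod l) = y w) := by
    intro z
    by_cases hz : z ∈ X
    swap
    · exact Or.inl fun h => absurd h hz
    by_cases h : l = 2
    · have e : X.ncard = l ^ (m + 1) := by rw [hcard, pow_succ', h]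
      have h3 := Nat.le_of_dvd hpos (dvd_orbit (k := m + 1) Q w (by rw [hX w hw, e]))
      have h4 := Set.eq_of_subset_of_ncard_le hsub (e.le.trans h3)
      exact Or.inl fun _ => hO z (h4.ge hz)
    · have h3 := Nat.le_of_dvd hpos (dvd_orbit (k := m) Q w (by
        rw [hX w hw, hcard]; exact dvd_mul_left _ _))
      have hd : Disjoint (orbit (Q : Subgroup H) w) (bar '' orbit (Q : Subgroup H) w) := by
        rw [Set.disjoint_left]
        rintro _ h4 ⟨x, h5, rfl⟩
        have h6 := hO _ h4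
        rw [hodd y hy, Int.cast_neg, hO x h5, neg_eq_iff_add_eq_zero, ← two_mul, mul_eq_zero] at h6
        exact h ((Nat.prime_dvd_prime_iff_eq hl Nat.prime_two).1
          ((ZMod.natCast_eq_zero_iff 2 l).1 (by exact_mod_cast h6.resolve_right ha)))
      have h4 := Set.eq_of_subset_of_ncard_le
        (Set.union_subset hsub (Set.image_subset_iff.2 fun x h5 => hb x (hsub h5))) (by
          rw [Set.ncard_union_eq hd, Set.ncard_image_of_injective _
            (Function.LeftInverse.injective h2), hcard]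
          omega)
      rcases h4.ge hz with h5 | ⟨x, h5, rfl⟩
      · exact Or.inl fun _ => hO z h5
      · exact Or.inr fun _ => by rw [h2, hO x h5]
  obtain ⟨Φ, h3, h4⟩ := exists_half h2 hne hA
  refine hΦ (Φ.filter (· ∈ X)) ?_ (fun z hz => (mem_filter.1 hz).2)
    (fun z hz h => (h4 z).1 (mem_filter.1 h).1 (mem_filter.1 hz).1) ?_
  · have h5 := sum_half h2 h4 (u := fun z => if z ∈ X then 1 else 0) fun z =>
      if_congr ⟨fun h => h2 z ▸ hb _ h, hb z⟩ rfl rfl
    simp only [sum_boole] at h5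
    rw [Set.ncard_eq_toFinset_card', ← Set.filter_mem_univ_eq_toFinset] at hcard
    zify at hcard
    rw [hcard] at h5
    exact_mod_cast (mul_left_cancel₀ two_ne_zero h5).symm
  · have h5 := sum_half h2 h4 (u := fun z => y z * c z) fun z => by
      rw [hodd y hy, hc, neg_mul_neg]
    rw [hsum y hy] at h5
    have h6 := congrArg (Int.cast : ℤ → ZMod l) ((mul_eq_zero.1 h5.symm).resolve_left two_ne_zero)
    rw [← ZMod.intCast_zmod_eq_zero_iff_dvd]
    refine (mul_eq_zero.1 ?_).resolve_left ha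
    rw [← Int.cast_zero, ← h6, Int.cast_sum, Int.cast_sum, mul_sum, sum_filter]
    refine sum_congr rfl fun z hz => ?_
    split_ifs with h
    · rw [Int.cast_mul, h3 z hz h]
    · rw [Int.cast_mul, (ZMod.intCast_zmod_eq_zero_iff_dvd _ _).2 (hout z h), mul_zero]

/-- Every relation between the translates of `c` is symmetric. -/
theorem symm_of_rel {G H : Type*} [Group G] [MulAction G R] [Group H] [Finite H] [MulAction H R]
    (hHG : ∀ η : H, ∃ g : G, ∀ z : R, η • z = g • z) (htr : ∀ z w : R, ∃ g : G, g • z = w)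
    (hbg : ∀ (g : G) z, bar (g • z) = g • bar z) {l m : ℕ} (hl : l.Prime)
    (h2 : ∀ z, bar (bar z) = z) (hne : ∀ z, bar z ≠ z) {c : R → ℤ} (hc : ∀ z, c (bar z) = - c z)
    {X : Set R} (hX : ∀ w ∈ X, orbit H w = X) (hb : ∀ w ∈ X, bar w ∈ X)
    (hcard : X.ncard = 2 * l ^ m) (hout : ∀ z, z ∉ X → (l : ℤ) ∣ c z)
    (hΦ : ∀ Φ : Finset R, Φ.card = l ^ m → (∀ z ∈ Φ, z ∈ X) → (∀ z ∈ Φ, bar z ∉ Φ) →
      ¬ (l : ℤ) ∣ ∑ z ∈ Φ, c z)
    {x : R → ℤ} (hx : ∀ g : G, ∑ z, x z * c (g • z) = 0) (z : R) : x (bar z) = x z := by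
  let Λ : AddSubgroup (R → ℤ) :=
    { carrier := {y | (∀ z, y (bar z) = - y z) ∧ ∀ g : G, ∑ z, y z * c (g • z) = 0}
      zero_mem' := by simp
      add_mem' := fun {a b} ha hb => ⟨fun z => by simp [ha.1, hb.1, add_comm],
        fun g => by simp [add_mul, sum_add_distrib, ha.2, hb.2]⟩
      neg_mem' := fun {a} ha => ⟨fun z => by simp [ha.1], fun g => by simp [ha.2]⟩ }
  have hG : ∀ y ∈ Λ, ∀ g : G, (fun z => y (g • z)) ∈ Λ := fun y hy g =>
    ⟨fun z => by rw [← hy.1, hbg], fun g' => by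
      rw [← hy.2 (g' * g⁻¹)]
      exact Fintype.sum_equiv (toPerm g) _ _ fun z => by simp [mul_smul]⟩
  obtain ⟨w, hw⟩ : X.Nonempty := Set.nonempty_of_ncard_ne_zero (by
    rw [hcard]; exact mul_ne_zero two_ne_zero (pow_ne_zero _ hl.ne_zero))
  have h1 : ∀ y ∈ Λ, ∀ z, (l : ℤ) ∣ y z := fun y hy z => by
    obtain ⟨g, rfl⟩ := htr w z
    exact local_step (H := H) hl h2 hne hc hX hb hcard hout hΦ Λ (fun y hy η => by
      obtain ⟨g, e⟩ := hHG η
      simpa only [e] using hG y hy g) (fun y hy => hy.1) (fun y hy => by simpa using hy.2 1)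
      (hG y hy g) hw
  have l0 : (l : ℤ) ≠ 0 := by exact_mod_cast hl.ne_zero
  have h3 : ∀ k : ℕ, ∀ y ∈ Λ, (l : ℤ) ^ k ∣ y z := by
    intro k
    induction k with
    | zero => simp
    | succ k ih =>
      intro y hy
      choose y' e using h1 y hy
      rw [e, pow_succ']
      refine mul_dvd_mul_left _ (ih y' ⟨fun z => mul_left_cancel₀ l0 ?_, fun g =>
        mul_left_cancel₀ l0 ?_⟩)
      · rw [← e, hy.1, e, mul_neg]
      · simpa [mul_sum, ← mul_assoc, ← e] using hy.2 g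
  have h4 : (fun z => x z - x (bar z)) ∈ Λ := ⟨fun z => by simp [h2], fun g => by
    have h5 : ∑ z, x (bar z) * c (g • z) = - ∑ z, x z * c (g • z) := by
      rw [← sum_neg_distrib]
      exact Fintype.sum_bijective bar (Function.Involutive.bijective h2) _ _ fun z => by
        rw [← hbg, hc, mul_neg, neg_neg]
    simp [sub_mul, sum_sub_distrib, h5, hx]⟩
  have h5 : x z - x (bar z) = 0 := by
    refine Int.eq_zero_of_abs_lt_dvd (h3 (x z - x (bar z)).natAbs _ h4) ?_
    rw [← Int.natCast_natAbs]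
    exact_mod_cast Nat.lt_pow_self hl.one_lt
  exact (sub_eq_zero.1 h5).symm

end Pool.Agent.P.MP_ee618e_ag.PP
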