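import Pool.Agent.P.MP_ee618e_ag.FP.Main
import Pool.Agent.P.MP_ee618e_ag.PP.Grp

/-!
No exotic Tate classes under a condition on signed sums of slopes modulo a prime.
-/

set_option autoImplicit false

namespace Pool.Agent.P.MP_ee618e_ag.PP

open Polynomial Pool.Agent.P.MP_ee618e_ag.FP

variable {p : ℕ} [hp : Fact p.Prime] {E : Type*} [Field E] [NumberField E]

/-- The hypotheses on the slopes. -/
structure Hyp (q l m : ℕ) (h P : ℤ[X]) (ι : E →+* PadicAlgCl p) (f : E[X]) (t : ℝ)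
    (c : PadicAlgCl p → ℤ) : Prop where
  prime : l.Prime
  monic : h.Monic
  irr : Irreducible h
  ss : ∀ z : PadicAlgCl p, aeval z P = 0 → ‖z‖ ^ 2 = ‖(q : PadicAlgCl p)‖
  firr : Irreducible f
  deg : f.natDegree = 2 * l ^ m
  dvd : f ∣ h.map (Int.castRingHom E)
  bar : ∀ z, f.eval₂ ι z = 0 → f.eval₂ ι (q / z) = 0
  one_lt : 1 < t
  slope : ∀ z, aeval z h = 0 → ‖z‖ ^ 2 = ‖(q : PadicAlgCl p)‖ * t ^ c z
  out : ∀ z, aeval z h = 0 → f.eval₂ ι z ≠ 0 → (l : ℤ) ∣ c z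
  half : ∀ Φ : Finset (PadicAlgCl p), Φ.card = l ^ m → (∀ z ∈ Φ, f.eval₂ ι z = 0) →
    (∀ z ∈ Φ, ∀ w ∈ Φ, z * w ≠ q) → ¬ (l : ℤ) ∣ ∑ z ∈ Φ, c z

theorem root_map {L Ω : Type*} [Field L] [Field Ω] (ψ : L →+* Ω) (z : L) (P : ℤ[X]) :
    aeval (ψ z) P = 0 ↔ aeval z P = 0 := by
  rw [← map_eq_zero ψ (a := aeval z P)]
  exact Eq.congr_left (aeval_algHom_apply ψ.toIntAlgHom _ P)

theorem sl_eq {Ω : Type*} [NormedField Ω] {q z : Ω} (hq : q ≠ 0) {t : ℝ} (ht : 1 < t) {n : ℤ}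
    (h : ‖z‖ ^ 2 = ‖q‖ * t ^ n) : sl q z = n * Real.log t := by
  have h1 := congrArg Real.log h
  rw [Real.log_pow, Real.log_mul (norm_ne_zero_iff.2 hq) (by positivity), Real.log_zpow] at h1
  rw [sl]
  push_cast at h1
  linarith

theorem sum_count {I R L : Type*} [Fintype R] [DecidableEq L] (J : Finset I) (γ : I → L)
    {v : R → L} (hv : Function.Injective v) {u : I → ℝ} {w : R → ℝ}
    (h1 : ∀ k z, γ k = v z → u k = w z) (h2 : ∀ k, (∀ z, γ k ≠ v z) → u k = 0) :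
    ∑ k ∈ J, u k = ∑ z, ((J.filter fun k => γ k = v z).card : ℝ) * w z := by
  simp only [Finset.card_filter, Nat.cast_sum, Finset.sum_mul]
  rw [Finset.sum_comm]
  refine Finset.sum_congr rfl fun k _ => ?_
  by_cases hk : ∃ z, γ k = v z
  · obtain ⟨z, e⟩ := hk
    rw [Fintype.sum_eq_single z fun y hy => by simp [e, hv.eq_iff, hy.symm], h1 k z e]
    simp [e]
  · push Not at hk
    simp [hk, h2 k hk]

/-- A vanishing sum of slope vectors that are not all zero contains an opposite pair. -/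
theorem core {q l m : ℕ} {h P : ℤ[X]} {ι : E →+* PadicAlgCl p} {f : E[X]} {t : ℝ}
    {c : PadicAlgCl p → ℤ} (H : Hyp q l m h P ι f t c) (hq : q ≠ 0)
    (hW : ∀ z : ℂ, aeval z h = 0 → ‖z‖ ^ 2 = q) {L : Type*} [Field L] [NumberField L]
    [IsGalois ℚ L] [Algebra E L] (φ : L →+* PadicAlgCl p) (hφ : ∀ x, φ (algebraMap E L x) = ι x)
    (hL : ∀ z, aeval z h = 0 → z ∈ φ.range) {I : Type*} {γ : I → L} {J : Finset I}
    (hγ : ∀ k, aeval (γ k) (h * P) = 0)
    (hsum : ∀ τ : L ≃ₐ[ℚ] L, ∑ k ∈ J, sl (q : PadicAlgCl p) (φ (τ (γ k))) = 0)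
    {j : I} (hj : j ∈ J) {σ : L ≃ₐ[ℚ] L} (h0 : sl (q : PadicAlgCl p) (φ (σ (γ j))) ≠ 0) :
    ∃ k ∈ J, j ≠ k ∧ γ j * γ k = q := by
  classical
  have : IsScalarTower ℚ E L := IsScalarTower.of_algebraMap_eq fun x => by simp
  have : FiniteDimensional E L := Module.Finite.right ℚ E L
  have : IsGalois E L := IsGalois.tower_top_of_isGalois ℚ E L
  have q0 : (q : PadicAlgCl p) ≠ 0 := by exact_mod_cast hq
  have q1 : (q : L) ≠ 0 := by exact_mod_cast hq
  have lt : 0 < Real.log t := Real.log_pos H.one_lt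
  let R := h.rootSet L
  have hR : ∀ z : L, z ∈ R ↔ aeval z h = 0 := fun z => mem_rootSet_of_ne H.monic.ne_zero
  obtain ⟨ψ⟩ : Nonempty (L →+* ℂ) := inferInstance
  obtain ⟨κ, hκ⟩ := emb ψ ((starRingEnd ℂ).comp ψ)
  have hc : ∀ z : R, (z : L) * κ z = q := fun z => ψ.injective (by
    rw [map_mul, hκ, map_natCast, RingHom.comp_apply, Complex.mul_conj, Complex.normSq_eq_norm_sq,
      hW _ ((root_map ψ _ _).2 ((hR _).1 z.2)), Complex.ofReal_natCast])
  have z0 : ∀ z : R, (z : L) ≠ 0 := fun z e => q1 (by rw [← hc z, e, zero_mul])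
  let bar : R → R := fun z => κ • z
  have hbar : ∀ z, (bar z : L) = q / z := fun z => eq_div_of_mul_eq (z0 z) (by
    rw [mul_comm]; exact hc z)
  have hs : ∀ z : R, sl (q : PadicAlgCl p) (φ z) = c (φ z) * Real.log t := fun z =>
    sl_eq q0 H.one_lt (H.slope _ ((root_map φ _ _).2 ((hR _).1 z.2)))
  have htr : ∀ z w : R, ∃ g : L ≃ₐ[ℚ] L, g • z = w := fun z w => by
    have e : h.map (algebraMap ℤ ℚ) = minpoly ℚ (z : L) := minpoly.eq_of_irreducible_of_monic
      (H.monic.irreducible_iff_irreducible_map_fraction_map.1 H.irr)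
      (by rw [aeval_map_algebraMap, (hR _).1 z.2]) (H.monic.map _)
    obtain ⟨g, hg⟩ := minpoly.exists_algEquiv_of_root' (K := ℚ) (x := (w : L)) (y := (z : L))
      (Algebra.IsAlgebraic.isAlgebraic _) (by rw [← e, aeval_map_algebraMap, (hR _).1 w.2])
    exact ⟨g, Subtype.ext hg⟩
  have hbg : ∀ (g : L ≃ₐ[ℚ] L) z, bar (g • z) = g • bar z := fun g z => Subtype.ext (by
    change (bar (g • z) : L) = g (bar z)
    rw [hbar, hbar, map_div₀, map_natCast]
    rfl)
  have hP : ∀ k, γ k ∉ R → ∀ τ : L ≃ₐ[ℚ] L, sl (q : PadicAlgCl p) (φ (τ (γ k))) = 0 := by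
    intro k hk τ
    have h1 := H.ss _ ((root_map φ _ _).2 ((root_map (τ : L →+* L) _ _).2
      ((mul_eq_zero.1 ((map_mul _ _ _).symm.trans (hγ k))).resolve_left fun e => hk ((hR _).2 e))))
    refine (sl_eq_zero q0 fun e => q0 ?_).2 h1
    rw [RingHom.coe_coe, e, norm_zero, zero_pow two_ne_zero] at h1
    exact norm_eq_zero.1 h1.symm
  have hjR : γ j ∈ R := by_contra fun e => h0 (hP j e σ)
  have hsb : ∀ z : R, sl (q : PadicAlgCl p) (φ (bar z)) = - sl (q : PadicAlgCl p) (φ z) := by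
    intro z
    rw [hbar, map_div₀, map_natCast, sl_div q0 ((map_ne_zero φ).2 (z0 z))]
  have hne : ∀ z, bar z ≠ z := fun z e => by
    obtain ⟨g, hg⟩ := htr z (σ • ⟨_, hjR⟩)
    have h1 := hsb (g • z)
    rw [hbg, e, hg, self_eq_neg] at h1
    exact h0 h1
  have hf : ∀ z : L, f.eval₂ ι (φ z) = φ (aeval z f) := fun z => by
    rw [aeval_def, hom_eval₂]
    congr 1
    exact RingHom.ext fun x => (hφ x).symm
  have hfh : ∀ z : L, aeval z f = 0 → z ∈ R := fun z hz => (hR z).2 (by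
    have := aeval_eq_zero_of_dvd_aeval_eq_zero H.dvd hz
    rwa [← algebraMap_int_eq, aeval_map_algebraMap] at this)
  have hmin : ∀ z w : L, aeval z f = 0 → aeval w f = 0 → aeval w (minpoly E z) = 0 :=
    fun z w hz hw => by rw [← minpoly.eq_of_irreducible H.firr hz, map_mul, hw, zero_mul]
  obtain ⟨z₁, hz₁⟩ : ∃ z : L, aeval z f = 0 := by
    obtain ⟨z, hz⟩ := IsAlgClosed.exists_eval₂_eq_zero ι f (degree_pos_of_irreducible H.firr).ne'
    obtain ⟨g, hg⟩ := H.dvd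
    obtain ⟨z, rfl⟩ := hL z (by
      have := congrArg (eval₂ ι z) hg
      rwa [eval₂_mul, hz, zero_mul, eval₂_map, RingHom.ext_int (ι.comp _) (algebraMap ℤ _)] at this)
    exact ⟨z, φ.injective (by rw [← hf, hz, map_zero])⟩
  have key := symm_of_rel (G := L ≃ₐ[ℚ] L) (H := L ≃ₐ[E] L) (R := R) (bar := bar)
    (fun η => ⟨η.restrictScalars ℚ, fun z => rfl⟩) htr hbg (m := m) H.prime
    (fun z => Subtype.ext (by rw [hbar, hbar, div_div_cancel₀ q1])) hne (c := fun z => c (φ z))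
    (fun z => by
      have h1 := hsb z
      rw [hs, hs, ← neg_mul] at h1
      exact_mod_cast mul_right_cancel₀ lt.ne' h1)
    (X := {z | aeval (z : L) f = 0})
    (fun w hw => Set.ext fun z => ⟨by
      rintro ⟨g, rfl⟩
      exact (aeval_algHom_apply g (w : L) f).trans (by rw [hw, map_zero]), fun hz => by
      obtain ⟨g, hg⟩ := minpoly.exists_algEquiv_of_root' (K := E)
        (Algebra.IsAlgebraic.isAlgebraic _) (hmin _ _ hw hz)
      exact ⟨g, Subtype.ext hg⟩⟩)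
    (fun w hw => φ.injective (by
      rw [← hf, hbar, map_div₀, map_natCast, map_zero]
      exact H.bar _ (by rw [hf, hw, map_zero])))
    (by
      have h1 : (f.map (algebraMap E L)).Splits := by
        have h2 := Normal.splits (inferInstance : Normal E L) z₁
        rw [← minpoly.eq_of_irreducible H.firr hz₁, Polynomial.map_mul, map_C] at h2
        exact (splits_mul_iff_left (by simpa using H.firr.ne_zero) (Splits.C _)).1 h2
      rw [← H.deg, ← card_rootSet_eq_natDegree H.firr.separable h1, ← Nat.card_eq_fintype_card,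
        Nat.card_coe_set_eq, ← Set.ncard_image_of_injective _ Subtype.val_injective]
      congr 1
      ext z
      rw [mem_rootSet_of_ne H.firr.ne_zero]
      exact ⟨fun ⟨w, hw, e⟩ => e ▸ hw, fun hz => ⟨⟨z, hfh z hz⟩, hz, rfl⟩⟩)
    (fun z hz => H.out _ ((root_map φ _ _).2 ((hR _).1 z.2)) (by
      rw [hf]; exact (map_ne_zero φ).2 hz))
    (fun Φ h1 h2 h3 => by
      have inj : Function.Injective fun z : R => φ z := φ.injective.comp Subtype.val_injective
      have h4 := H.half (Φ.map ⟨_, inj⟩) (by rw [Finset.card_map, h1]) (fun z hz => by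
        obtain ⟨w, hw, rfl⟩ := Finset.mem_map.1 hz
        exact (hf w).trans (by rw [h2 w hw, map_zero])) (fun z hz w hw e => by
        obtain ⟨z, hz', rfl⟩ := Finset.mem_map.1 hz
        obtain ⟨w, hw', rfl⟩ := Finset.mem_map.1 hw
        have e' : (z : L) * w = q := φ.injective (by rw [map_mul, map_natCast]; exact e)
        have : bar z = w := Subtype.ext (by rw [hbar, ← e', mul_div_cancel_left₀ _ (z0 z)])
        exact h3 z hz' (this ▸ hw'))
      rwa [Finset.sum_map] at h4)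
    (x := fun z => ((J.filter fun k => γ k = z).card : ℤ))
    (fun g => by
      have h1 := sum_count J γ (v := fun z : R => (z : L)) Subtype.val_injective
        (u := fun k => sl (q : PadicAlgCl p) (φ (g (γ k))))
        (w := fun z => c (φ (g • z : R)) * Real.log t)
        (fun k z e => by rw [e, ← hs]; rfl) fun k hk => hP k (fun e => hk ⟨_, e⟩ rfl) g
      rw [hsum] at h1
      simp only [← mul_assoc, ← Finset.sum_mul] at h1
      exact_mod_cast (mul_eq_zero.1 h1.symm).resolve_right lt.ne') ⟨_, hjR⟩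
  have h1 : 0 < (J.filter fun k => γ k = bar ⟨_, hjR⟩).card := by
    rw [Nat.cast_inj.1 key]
    exact Finset.card_pos.2 ⟨j, Finset.mem_filter.2 ⟨hj, rfl⟩⟩
  obtain ⟨k, hk⟩ := Finset.card_pos.1 h1
  obtain ⟨h2, h3⟩ := Finset.mem_filter.1 hk
  exact ⟨k, h2, fun e => hne ⟨_, hjR⟩ (Subtype.ext (h3.symm.trans (congrArg γ e.symm))), by
    rw [h3]; exact hc ⟨_, hjR⟩⟩

theorem pair_padic {e l m : ℕ} {h P : ℤ[X]} {ι : E →+* PadicAlgCl p} {f : E[X]} {t : ℝ}
    {c : PadicAlgCl p → ℤ} (H : Hyp (p ^ e) l m h P ι f t c) (hP : P.Monic)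
    (hW : ∀ z : ℂ, aeval z (h * P) = 0 → ‖z‖ ^ 2 = (p : ℝ) ^ e) {I : Type*}
    {β : I → PadicAlgCl p} (hr : ∀ k, aeval (β k) (h * P) = 0) {J : Finset I} {i n : ℕ}
    (hJ : J.card = 2 * (i + 1)) (hn : 0 < n)
    (hrel : (∏ k ∈ J, β k) ^ n = ((p : PadicAlgCl p) ^ e) ^ ((i + 1) * n)) :
    ∃ k ∈ J, ∃ l ∈ J, k ≠ l ∧ ∃ m, 0 < m ∧ (β k * β l) ^ m = ((p : PadicAlgCl p) ^ e) ^ m := by
  obtain ⟨L, hfd, hno, hι, hL⟩ := exists_big (H.monic.mul hP) ι
  have : NumberField L := ⟨⟩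
  have : IsGalois ℚ L := ⟨⟩
  let : Algebra E L := (ι.codRestrict L.toSubfield hι).toAlgebra
  let φ : L →+* PadicAlgCl p := algebraMap L _
  let γ : I → L := fun k => ⟨β k, hL _ (hr k)⟩
  have p0 : (0 : ℝ) < p := by exact_mod_cast hp.out.pos
  have hq : ((p ^ e : ℕ) : PadicAlgCl p) ≠ 0 := by exact_mod_cast pow_ne_zero e hp.out.ne_zero
  have hqL : (p : L) ^ e ≠ 0 := pow_ne_zero e (by exact_mod_cast hp.out.ne_zero)
  have hγ : ∀ k, aeval (γ k) (h * P) = 0 := fun k => (root_map φ _ _).1 (hr k)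
  have hγ0 : ∀ k, γ k ≠ 0 := by
    intro k h0
    obtain ⟨ψ⟩ : Nonempty (L →+* ℂ) := inferInstance
    have h1 := hW _ ((root_map ψ _ _).2 (hγ k))
    rw [h0, map_zero, norm_zero] at h1
    exact (pow_pos p0 e).ne' (by rw [← h1]; norm_num)
  have hrel' : (∏ k ∈ J, γ k) ^ n = ((p : L) ^ e) ^ ((i + 1) * n) := φ.injective (by
    simp only [map_pow, map_prod, map_natCast]
    exact hrel)
  by_cases h1 : ∀ σ : L ≃ₐ[ℚ] L, ∀ k ∈ J, sl ((p ^ e : ℕ) : PadicAlgCl p) (φ (σ (γ k))) = 0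
  swap
  · push Not at h1
    obtain ⟨σ, j, hj, h1⟩ := h1
    obtain ⟨k, hk, h2, h3⟩ := core H (pow_ne_zero e hp.out.ne_zero)
      (fun z hz => by rw [hW z (by rw [map_mul, hz, zero_mul]), Nat.cast_pow]) φ (fun _ => rfl)
      (fun z hz => ⟨⟨z, hL z (by rw [map_mul, hz, zero_mul])⟩, rfl⟩) hγ
      (fun τ => sl_sum (fun k _ => (map_ne_zero φ).2 ((map_ne_zero τ).2 (hγ0 k))) hJ hn
        (by simpa using congrArg (fun x => φ (τ x)) hrel')) hj h1
    have h4 := congrArg φ h3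
    rw [map_mul, map_natCast, Nat.cast_pow] at h4
    exact ⟨j, hj, k, hk, h2, 1, one_pos, congrArg (· ^ 1) h4⟩
  obtain ⟨k, hk, l, hl, h2⟩ := Finset.one_lt_card.1 (show 1 < J.card by omega)
  obtain ⟨m, hm, h3⟩ := kron φ (u := γ k * γ l / (p : L) ^ e)
    ⟨e, by
      rw [mul_div_cancel₀ _ hqL]
      exact IsIntegral.mul ⟨_, H.monic.mul hP, hγ k⟩ ⟨_, H.monic.mul hP, hγ l⟩⟩
    (fun τ => by
      have n0 : ∀ k, φ (τ (γ k)) ≠ 0 := fun k => (map_ne_zero φ).2 ((map_ne_zero τ).2 (hγ0 k))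
      have h4 : _ + _ = _ := congrArg₂ (· + ·) (h1 τ k hk) (h1 τ l hl)
      rw [add_zero, ← sl_mul (n0 k) (n0 l), sl_eq_zero (pow_ne_zero 2 hq)
        (mul_ne_zero (n0 k) (n0 l)), norm_pow, sq_eq_sq₀ (norm_nonneg _) (norm_nonneg _)] at h4
      simp only [map_div₀, map_mul, map_pow, map_natCast, norm_div, h4, Nat.cast_pow]
      exact div_self (norm_ne_zero_iff.2 (by exact_mod_cast hq)))
    (fun ψ => by
      have h4 := hW _ ((root_map ψ _ _).2 (hγ k))
      have h5 := hW _ ((root_map ψ _ _).2 (hγ l))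
      have h6 : ‖ψ (γ k)‖ = ‖ψ (γ l)‖ :=
        (sq_eq_sq₀ (norm_nonneg _) (norm_nonneg _)).1 (h4.trans h5.symm)
      simp only [map_div₀, map_mul, map_pow, map_natCast, norm_div, norm_mul, norm_pow,
        Complex.norm_natCast]
      rw [h6, ← sq, h5, div_self (pow_pos p0 e).ne'])
  refine ⟨k, hk, l, hl, h2, m, hm, ?_⟩
  rw [div_pow, div_eq_one_iff_eq (pow_ne_zero m hqL)] at h3
  have h4 := congrArg φ h3
  rw [map_pow, map_mul, map_pow, map_pow, map_natCast] at h4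
  exact h4

theorem main {e l m : ℕ} {h P : ℤ[X]} {ι : E →+* PadicAlgCl p} {f : E[X]} {t : ℝ}
    {c : PadicAlgCl p → ℤ} (H : Hyp (p ^ e) l m h P ι f t c) (hP : P.Monic)
    (hW : ∀ z : ℂ, aeval z (h * P) = 0 → ‖z‖ ^ 2 = (p : ℝ) ^ e) {K V : Type*} [Field K]
    [CharZero K] [AddCommGroup V] [Module K V] [FiniteDimensional K V] {F : V →ₗ[K] V}
    (hF : Module.End.IsSemisimple F) (hFP : aeval F (h * P) = 0) (i : ℕ) :
    TateClasses F ((p : K) ^ e) i ⊆ Algebra.adjoin K (TateClasses F ((p : K) ^ e) 1) := by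
  let A := AlgebraicClosure K
  have : CharZero A := algebraRat.charZero A
  obtain ⟨s, b, α, hα⟩ := exists_eigenbasis A hF
  refine descent A F _ i ?_
  rw [map_pow, map_natCast]
  have hr : ∀ k, aeval (α k) (h * P) = 0 := fun k => by
    have h1 := aeval_algHom_apply (Module.End.baseChangeHom K A V) F
      ((h * P).map (algebraMap ℤ K))
    rw [aeval_map_algebraMap, aeval_map_algebraMap, hFP, map_zero] at h1
    change aeval (F.baseChange A) (h * P) = 0 at h1
    have h2 := Module.End.aeval_apply_of_hasEigenvector (p := (h * P).map (algebraMap ℤ A))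
      (f := F.baseChange A) (μ := α k) (x := b k)
      ⟨Module.End.mem_eigenspace_iff.2 (hα k), b.ne_zero k⟩
    rw [aeval_map_algebraMap, h1, eval_map_algebraMap] at h2
    exact (smul_eq_zero.1 h2.symm).resolve_right (b.ne_zero k)
  refine gen_of_pairs hα (pow_ne_zero _ (by exact_mod_cast hp.out.ne_zero))
    (fun J i n hJ hn hrel => ?_) i
  let B := algebraicClosure ℚ A
  have : Algebra.IsAlgebraic ℚ B := by
    convert algebraicClosure.isAlgebraic ℚ A
    · rfl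
    · exact Subsingleton.elim _ _
  let φ : B →ₐ[ℚ] PadicAlgCl p := IsAlgClosed.lift
  let γ : s → B := fun k => ⟨α k, mem_algebraicClosure_iff'.2
    (IsIntegral.tower_top (R := ℤ) ⟨_, H.monic.mul hP, hr k⟩)⟩
  let g : B →+* A := algebraMap B A
  have hrel' : (∏ k ∈ J, γ k) ^ n = ((p : B) ^ e) ^ ((i + 1) * n) := g.injective (by
    simp only [map_pow, map_prod, map_natCast]
    exact hrel)
  obtain ⟨k, hk, l, hl, h1, m, hm, h2⟩ := pair_padic H hP hW (β := fun k => φ (γ k))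
    (fun k => (root_map φ.toRingHom _ _).2 ((root_map g _ _).1 (hr k))) hJ hn
    (by simpa using congrArg φ hrel')
  have h3 : (γ k * γ l) ^ m = ((p : B) ^ e) ^ m := φ.injective (by simpa using h2)
  have h4 := congrArg g h3
  rw [map_pow, map_mul, map_pow, map_pow, map_natCast] at h4
  exact ⟨k, hk, l, hl, h1, m, hm, h4⟩

end Pool.Agent.P.MP_ee618e_ag.PP
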